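import Pool.Agent.Lib.MP_640444_pr.Final
import Pool.Agent.Lib.MP_640444_pr.Lit.Bridge

set_option autoImplicit false
open MeasureTheory
open Pool.Agent.Lib.MP_640444_pr

namespace Pool.Agent.Results.MP_640444_pr.Literal

/-- For every mean current in the interior of the octahedron there is exactly one ergodic Gibbs
measure of the dimer model on Z^3, with the definitions of the problem file. -/
theorem result (s : Fin 3 → ℝ) (hs : ∑ i, |s i| < 1) :
    ∃! μ : Measure Lit.Omega,
      μ ∈ Lit.Invariant.extremePoints ENNReal ∧ Lit.IsGibbs μ ∧ Lit.current μ = s := by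
  obtain ⟨ν, h⟩ := exist_all s hs
  exact (Lit.unique_iff s).2 ⟨ν, h, fun ν' h' => uniq_all s ν' ν hs h' h⟩

end Pool.Agent.Results.MP_640444_pr.Literal
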